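import Pool.Agent.Q36.QD.Ab7

/-!
# Restricted quasi-diagonals exist only for line bundles commensurable with `𝒪(d[e])`

Let `E : y² = x³ + A x + B` be a complex elliptic curve, `D` a divisor on `E` and `S ⊂ E ^ n` a
quasi-diagonal over `(E, 𝒪(D))` such that the summation map sends `S` to the origin `e`. Then the sum
`∑ D(Q) Q ∈ E` of the points of `D` in the group law is a torsion point; by Abel's theorem this means
that `𝒪(D) ⊗ 𝒪(d[e])⁻¹`, `d = deg D`, is a torsion element of `Pic₀(E)`.

Proof: let `C` be the normalization of `S`, and `F_k` a function on `C` with the divisor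
`N (p_i^* D - p_k^* D)`. By Abel's theorem for `p_k : C → E` (proved here with the norm of ideals of the
integral closure of `ℂ[E]` in `ℂ(C)`), the push-forward by `p_k` of `div F_k` has sum zero in `E`; the
push-forward of `p_k^* D` is `deg(p_k) D`; and the sum over `k` of the push-forwards of `p_i^* D` is zero
as `∑ p_k = e`. Hence `N (∑ deg p_k) ∑ D(Q) Q = 0`.
-/

namespace Pool.Agent.Results.MP_d178f2_ag.Commensurable

open Q36.QD

open Classical in
/-- Let `S ⊂ E ^ n` be a curve, with function field `K` and generic point `P`, which is a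
quasi-diagonal over `(E, 𝒪(D))` and is contained in the kernel of the summation map `E ^ n → E`. Then
the sum of the divisor `D` in the group `E` is a torsion point, i.e. `𝒪(D)` is commensurable with
`𝒪(d[e])`, `d = deg D`. -/
theorem result {A B : ℂ} (hD : 4 * A ^ 3 + 27 * B ^ 2 ≠ 0) {K : Type} [Field K] [Algebra ℂ K]
    {n : ℕ} (P : Fin n → EK A B K) (D : E A B →₀ ℤ) (hq : IsQuasiDiagonal D P)
    (h0 : ∀ s, Mem P s → ∑ i, s i = 0) :
    ∃ N : ℕ, 0 < N ∧ N • (D.sum fun Q m => m • Q) = 0 :=
  torsion_of_restricted hD hq h0

end Pool.Agent.Results.MP_d178f2_ag.Commensurable
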